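import Pool.Agent.H607R3.PS.Grade
import Pool.Agent.H594.PSRegP
import Pool.Agent.H841.PSRes
import Pool.Agent.H51R3.PS.Common
import Pool.Agent.H633R3.PS.Loc
import Pool.Agent.H291R3.PSB.Base

set_option autoImplicit false

/-! The two remaining facts for the grade conjecture example `RR[[t]]/(st)`. -/

namespace Pool.Agent.K9lead.GC

open IsLocalRing Pool.Agent.H607R3.PS H51R3.PS

section

variable {T : Type} [CommRing T] {α β γ : T}

/-- evaluation of `RP` at `t = 0`, first coordinate, followed by `φ` -/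
noncomputable def ev {S : Type} [CommRing S] (φ : T →+* S) : RP T α β γ →+* S :=
  Ideal.Quotient.lift _
    ((φ.comp (fstR (T := T) (α := α) (β := β) (γ := γ))).comp
      (PowerSeries.constantCoeff (R := RR T α β γ))) (by
    intro f hf
    rw [Ideal.mem_span_singleton] at hf
    obtain ⟨c, rfl⟩ := hf
    simp)

theorem ev_toRP {S : Type} [CommRing S] (φ : T →+* S) (u : RR T α β γ) :
    ev φ (toRP u) = φ u.a := by
  change ev φ (Ideal.Quotient.mk _ (PowerSeries.C u)) = _
  unfold ev
  rw [Ideal.Quotient.lift_mk]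
  simp [fstR]

/-- the variable `t` -/
noncomputable def tt : RP T α β γ := Ideal.Quotient.mk _ PowerSeries.X

theorem ev_tt {S : Type} [CommRing S] (φ : T →+* S) : ev φ (tt : RP T α β γ) = 0 := by
  unfold ev tt
  rw [Ideal.Quotient.lift_mk]
  simp

theorem s_tt : toRP (RR.s : RR T α β γ) * tt = 0 := by
  change Ideal.Quotient.mk _ (PowerSeries.C (RR.s : RR T α β γ)) *
    Ideal.Quotient.mk _ PowerSeries.X = 0
  rw [← map_mul, Ideal.Quotient.eq_zero_iff_mem]
  exact Ideal.subset_span rfl

/-- decomposition of elements of `RP` -/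
theorem decomp (f : RP T α β γ) : ∃ (a b c : T) (g : RP T α β γ),
    f = toRP (RR.emb a) + toRP (RR.emb b) * toRP RR.x + toRP (RR.emb c) * toRP RR.w + tt * g ∧
    ∀ {S : Type} [CommRing S] (φ : T →+* S), ev φ f = φ a := by
  obtain ⟨F, rfl⟩ := Ideal.Quotient.mk_surjective f
  obtain ⟨G, hG⟩ : ∃ G : PowerSeries (RR T α β γ),
      F = PowerSeries.C (PowerSeries.constantCoeff F) + PowerSeries.X * G := by
    have h : (PowerSeries.X : PowerSeries (RR T α β γ)) ∣
        F - PowerSeries.C (PowerSeries.constantCoeff F) := by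
      rw [PowerSeries.X_dvd_iff]
      simp
    obtain ⟨G, hG⟩ := h
    exact ⟨G, by rw [← hG]; ring⟩
  set u := PowerSeries.constantCoeff F with hu
  refine ⟨u.a, u.b, u.c, Ideal.Quotient.mk _ G, ?_, ?_⟩
  · have h1 : (Ideal.Quotient.mk (Ideal.span {PowerSeries.C (RR.s : RR T α β γ) *
        PowerSeries.X}) F : RP T α β γ) = toRP u + tt * Ideal.Quotient.mk _ G := by
      conv_lhs => rw [hG]
      rw [map_add, map_mul]
      rfl
    rw [h1]
    have h2 : toRP u = toRP (RR.emb u.a) + toRP (RR.emb u.b) * toRP RR.x +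
        toRP (RR.emb u.c) * toRP (RR.w : RR T α β γ) := by
      conv_lhs => rw [RR.decomp u]
      rw [map_add, map_add, map_mul, map_mul]
    rw [h2]
  · intro S _ φ
    unfold ev
    rw [Ideal.Quotient.lift_mk]
    rw [hu]
    rfl

theorem toRP_gens (i : Fin 7) :
    gens (toRP (RR.x : RR T α β γ)) (toRP RR.y) (toRP RR.z) (toRP RR.w) (toRP RR.s) i =
      toRP (gens (RR.x : RR T α β γ) RR.y RR.z RR.w RR.s i) := by
  fin_cases i <;> simp [gens]

theorem toRP_xs : toRP (RR.x : RR T α β γ) * toRP (RR.s : RR T α β γ) = 0 := by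
  rw [← map_mul, RR.xs, map_zero]

theorem toRP_ws : toRP (RR.w : RR T α β γ) * toRP (RR.s : RR T α β γ) = 0 := by
  rw [← map_mul, RR.ws, map_zero]

end

/-- weakly regular sequences in a prime are not longer than its height -/
theorem length_le_height {A : Type} [CommRing A] [IsNoetherianRing A] (P : Ideal A) [P.IsPrime]
    (n : ℕ) (hP : P.height ≤ n) (rs : List A) (hlen : n < rs.length) (hmem : ∀ r ∈ rs, r ∈ P) :
    ¬ RingTheory.Sequence.IsWeaklyRegular A rs := by
  intro hreg
  have hreg' := hreg.isRegular_of_isLocalization_of_mem (Localization.AtPrime P) P hmem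
  have h1 := ringKrullDim_add_length_eq_ringKrullDim_of_isRegular _ hreg'
  rw [IsLocalization.AtPrime.ringKrullDim_eq_height P (Localization.AtPrime P)] at h1
  have hnt : Nontrivial ((Localization.AtPrime P) ⧸
      Ideal.ofList (rs.map (algebraMap A (Localization.AtPrime P)))) := by
    rw [Ideal.Quotient.nontrivial_iff]
    intro h
    apply hreg'.2
    rw [h]
    simp
  have h0 : (0 : WithBot ℕ∞) ≤ ringKrullDim ((Localization.AtPrime P) ⧸
      Ideal.ofList (rs.map (algebraMap A (Localization.AtPrime P)))) :=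
    ringKrullDim_nonneg_of_nontrivial
  have h2 : (P.height : WithBot ℕ∞) ≤ ((n : ℕ∞) : WithBot ℕ∞) := WithBot.coe_le_coe.2 hP
  rw [List.length_map] at h1
  have h3 : (0 : WithBot ℕ∞) + ((rs.length : ℕ) : WithBot ℕ∞) ≤ ((n : ℕ∞) : WithBot ℕ∞) := by
    refine le_trans (add_le_add h0 le_rfl) ?_
    rw [h1]
    exact h2
  rw [zero_add] at h3
  have h4 : rs.length ≤ n := by exact_mod_cast h3
  omega

section Grade

variable {T : Type} [CommRing T] [IsLocalRing T] [IsNoetherianRing T] [IsDomain T] {α β γ : T}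

/-- the prime `(x, y, z, w, t)` -/
noncomputable def PP (T : Type) [CommRing T] (α β γ : T) : Ideal (RP T α β γ) :=
  RingHom.ker (ev (α := α) (β := β) (γ := γ) (Ideal.Quotient.mk (Ideal.span {α, β} : Ideal T)))

theorem mem_PP {f : RP T α β γ} : f ∈ PP T α β γ ↔
    ev (Ideal.Quotient.mk (Ideal.span {α, β} : Ideal T)) f = 0 := Iff.rfl

theorem PP_prime (hB : Base T α β γ) : (PP T α β γ).IsPrime := by
  have := hB.prime2
  have : IsDomain (T ⧸ (Ideal.span {α, β} : Ideal T)) := Ideal.Quotient.isDomain _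
  exact RingHom.ker_isPrime _

theorem cP_le (T : Type) [CommRing T] (α β γ : T) : cP T α β γ ≤ PP T α β γ := by
  unfold cP cI
  rw [Ideal.span_le]
  rintro _ ⟨i, rfl⟩
  rw [SetLike.mem_coe, toRP_gens]
  change ev _ _ = 0
  rw [ev_toRP, Ideal.Quotient.eq_zero_iff_mem]
  exact rho_gens i

theorem PP_minimal (hB : Base T α β γ) : PP T α β γ ∈
    (Ideal.span {toRP (RR.emb α : RR T α β γ), toRP (RR.emb β)} : Ideal (RP T α β γ)).minimalPrimes := by
  have hprime := PP_prime hB
  have hαm : toRP (RR.emb α : RR T α β γ) ∈ PP T α β γ := by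
    change ev _ _ = 0
    rw [ev_toRP, Ideal.Quotient.eq_zero_iff_mem]
    exact Ideal.subset_span (by simp)
  have hβm : toRP (RR.emb β : RR T α β γ) ∈ PP T α β γ := by
    change ev _ _ = 0
    rw [ev_toRP, Ideal.Quotient.eq_zero_iff_mem]
    exact Ideal.subset_span (by simp)
  refine ⟨⟨hprime, ?_⟩, ?_⟩
  · rw [Ideal.span_le]
    intro u hu
    rcases hu with rfl | hu
    · exact hαm
    · rw [Set.mem_singleton_iff] at hu
      rw [hu]; exact hβm
  · rintro Q ⟨hQ, hle⟩ hQP f hf
    have hαQ : toRP (RR.emb α : RR T α β γ) ∈ Q := hle (Ideal.subset_span (by simp))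
    have hβQ : toRP (RR.emb β : RR T α β γ) ∈ Q := hle (Ideal.subset_span (by simp))
    have hs : toRP (RR.s : RR T α β γ) ∉ Q := by
      intro h
      have h1 := mem_PP.1 (hQP h)
      rw [ev_toRP, Ideal.Quotient.eq_zero_iff_mem] at h1
      exact hB.notMem h1
    have hx : toRP (RR.x : RR T α β γ) ∈ Q :=
      (hQ.mem_or_mem (by rw [toRP_xs]; exact Q.zero_mem)).resolve_right hs
    have hw : toRP (RR.w : RR T α β γ) ∈ Q :=
      (hQ.mem_or_mem (by rw [toRP_ws]; exact Q.zero_mem)).resolve_right hs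
    have ht : (tt : RP T α β γ) ∈ Q :=
      (hQ.mem_or_mem (by rw [s_tt]; exact Q.zero_mem)).resolve_left hs
    obtain ⟨a, b, c, g, hfe, hev⟩ := decomp f
    have ha : a ∈ (Ideal.span {α, β} : Ideal T) := by
      rw [← Ideal.Quotient.eq_zero_iff_mem, ← hev]
      exact hf
    have ha' : toRP (RR.emb a : RR T α β γ) ∈ Q := by
      rw [Ideal.mem_span_pair] at ha
      obtain ⟨p, q, rfl⟩ := ha
      rw [map_add, map_mul, map_mul, map_add, map_mul, map_mul]
      exact Q.add_mem (Q.mul_mem_left _ hαQ) (Q.mul_mem_left _ hβQ)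
    rw [hfe]
    exact Q.add_mem (Q.add_mem (Q.add_mem ha' (Q.mul_mem_left _ hx)) (Q.mul_mem_left _ hw))
      (Q.mul_mem_right _ ht)

theorem height_PP (hB : Base T α β γ) : (PP T α β γ).height ≤ 2 := by
  classical
  have h := Ideal.height_le_card_of_mem_minimalPrimes_span (Set.toFinite _) (PP_minimal hB)
  refine h.trans ?_
  have h2 : ({toRP (RR.emb α : RR T α β γ), toRP (RR.emb β)} : Set (RP T α β γ)).ncard ≤ 2 := by
    refine (Set.ncard_insert_le _ _).trans ?_
    rw [Set.ncard_singleton]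
  exact_mod_cast h2

theorem gradeP : TaskGradeP := by
  intro T _ _ _ _ α β γ hB
  rintro ⟨rs, hlen, hmem, hreg⟩
  have := PP_prime hB
  refine length_le_height (PP T α β γ) 2 (height_PP hB) rs (by omega)
    (fun r hr => cP_le T α β γ (hmem r hr)) hreg

end Grade

end Pool.Agent.K9lead.GC
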