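import Pool.Agent.K9lead.GC

set_option autoImplicit false

/-! Dimensions for the grade conjecture example `RR[[t]]/(st)`. -/

namespace Pool.Agent.K9lead.GC

open IsLocalRing Pool.Agent.H607R3.PS H51R3.PS

theorem dim_powerSeries {A : Type} [CommRing A] :
    ringKrullDim A + 1 ≤ ringKrullDim (PowerSeries A) := by
  have hX : (PowerSeries.X : PowerSeries A) ∈ nonZeroDivisors (PowerSeries A) := by
    rw [mem_nonZeroDivisors_iff_right]
    intro f hf
    ext n
    have h := congrArg (PowerSeries.coeff (n + 1)) hf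
    rw [PowerSeries.coeff_succ_mul_X] at h
    simpa using h
  refine le_trans ?_ (ringKrullDim_quotient_succ_le_of_nonZeroDivisor hX)
  gcongr
  refine ringKrullDim_le_of_surjective (Ideal.Quotient.lift _ (PowerSeries.constantCoeff (R := A))
    ?_) ?_
  · intro f hf
    rw [Ideal.mem_span_singleton] at hf
    obtain ⟨c, rfl⟩ := hf
    simp
  · intro a
    exact ⟨Ideal.Quotient.mk _ (PowerSeries.C a), by rw [Ideal.Quotient.lift_mk]; simp⟩

variable {T : Type} [CommRing T] [IsLocalRing T] [IsNoetherianRing T] [IsDomain T] {α β γ : T}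

theorem dim_RP (hB : Base T α β γ) : (4 : WithBot ℕ∞) ≤ ringKrullDim (RP T α β γ) := by
  have h1 : ringKrullDim (PowerSeries (RR T α β γ ⧸ (Ideal.span {RR.s} : Ideal (RR T α β γ)))) ≤
      ringKrullDim (RP T α β γ) := by
    refine ringKrullDim_le_of_surjective (Ideal.Quotient.lift _ (PowerSeries.map
      (Ideal.Quotient.mk (Ideal.span {RR.s} : Ideal (RR T α β γ)))) ?_) ?_
    · intro f hf
      rw [Ideal.mem_span_singleton] at hf
      obtain ⟨c, rfl⟩ := hf
      rw [map_mul, map_mul, PowerSeries.map_C]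
      have : Ideal.Quotient.mk (Ideal.span {RR.s} : Ideal (RR T α β γ)) RR.s = 0 := by
        rw [Ideal.Quotient.eq_zero_iff_mem]
        exact Ideal.subset_span rfl
      rw [this, map_zero, zero_mul, zero_mul]
    · intro g
      obtain ⟨f, hf⟩ := PowerSeries.map_surjective _ Ideal.Quotient.mk_surjective g
      exact ⟨Ideal.Quotient.mk _ f, by rw [Ideal.Quotient.lift_mk]; exact hf⟩
  have h2 := dim_powerSeries (A := RR T α β γ ⧸ (Ideal.span {RR.s} : Ideal (RR T α β γ)))
  have h3 : (3 : WithBot ℕ∞) + 1 ≤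
      ringKrullDim (RR T α β γ ⧸ (Ideal.span {RR.s} : Ideal (RR T α β γ))) + 1 := by
    gcongr
    exact dimA hB
  have h4 : (3 : WithBot ℕ∞) + 1 = 4 := by norm_num
  rw [h4] at h3
  exact (h3.trans h2).trans h1

/-- the maximal ideal of `RP` -/
theorem mem_max_RP [IsLocalRing (RP T α β γ)] {f : RP T α β γ}
    (hf : f ∈ maximalIdeal (RP T α β γ)) : ev (residue T) f = 0 := by
  have hsurj : Function.Surjective (ev (α := α) (β := β) (γ := γ) (residue T)) := by
    intro k
    obtain ⟨a, rfl⟩ := residue_surjective k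
    exact ⟨toRP (RR.emb a), by rw [ev_toRP]; rfl⟩
  have hmax : (RingHom.ker (ev (α := α) (β := β) (γ := γ) (residue T))).IsMaximal :=
    RingHom.ker_isMaximal_of_surjective _ hsurj
  have h := IsLocalRing.eq_maximalIdeal hmax
  rw [← h] at hf
  exact hf

/-- a prime containing `cP` and `s + t` contains the maximal ideal -/
theorem max_le [IsLocalRing (RP T α β γ)] (hB : Base T α β γ) (Q : Ideal (RP T α β γ)) (hQ : Q.IsPrime)
    (hc : cP T α β γ ≤ Q) (hst : toRP (RR.s : RR T α β γ) + tt ∈ Q) :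
    maximalIdeal (RP T α β γ) ≤ Q := by
  have hgen : ∀ i : Fin 7, gens (toRP (RR.x : RR T α β γ)) (toRP RR.y) (toRP RR.z) (toRP RR.w)
      (toRP RR.s) i ∈ Q := fun i => hc (Ideal.subset_span ⟨i, rfl⟩)
  have hst2 : toRP (RR.s : RR T α β γ) ∈ Q ∧ (tt : RP T α β γ) ∈ Q := by
    rcases hQ.mem_or_mem (show toRP (RR.s : RR T α β γ) * tt ∈ Q by rw [s_tt]; exact Q.zero_mem)
      with h | h
    · exact ⟨h, (Q.add_mem_iff_right h).1 hst⟩
    · exact ⟨(Q.add_mem_iff_left h).1 hst, h⟩
  obtain ⟨hs, ht⟩ := hst2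
  have hα : toRP (RR.emb α : RR T α β γ) ∈ Q := hQ.mem_of_pow_mem _ (hc mem_F)
  have hβ : toRP (RR.emb β : RR T α β γ) ∈ Q := hQ.mem_of_pow_mem _ (hc mem_G)
  have hy : toRP (RR.y : RR T α β γ) ∈ Q := hQ.mem_of_pow_mem 3 (hgen 0)
  have hx : toRP (RR.x : RR T α β γ) ∈ Q := by
    have h : toRP (RR.x : RR T α β γ) = toRP (RR.emb α : RR T α β γ) + toRP RR.y := by
      rw [← map_add, ← RR.x_sub_y, sub_add_cancel]
    rw [h]
    exact Q.add_mem hα hy
  have hw : toRP (RR.w : RR T α β γ) ∈ Q := by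
    have h4 := hgen 4
    have h5 : gens (toRP (RR.x : RR T α β γ)) (toRP RR.y) (toRP RR.z) (toRP RR.w)
      (toRP RR.s) 4 = toRP RR.w ^ 4 + toRP RR.s * toRP RR.y * toRP RR.z := rfl
    rw [h5] at h4
    exact hQ.mem_of_pow_mem 4 ((Q.add_mem_iff_left (Q.mul_mem_right _ (Q.mul_mem_right _ hs))).1 h4)
  have hγ : toRP (RR.emb γ : RR T α β γ) ∈ Q := by
    rw [← RR.s_add_w, map_add]
    exact Q.add_mem hs hw
  intro f hf
  have h0 := mem_max_RP hf
  obtain ⟨a, b, c, g, hfe, hev⟩ := decomp f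
  rw [hev, residue_eq_zero_iff, hB.max] at h0
  have ha : toRP (RR.emb a : RR T α β γ) ∈ Q := by
    have hle : Ideal.span {α, β, γ} ≤ Q.comap ((toRP (T := T) (α := α) (β := β) (γ := γ)).comp
        RR.emb) := by
      rw [Ideal.span_le]
      rintro u (rfl | rfl | rfl)
      · exact hα
      · exact hβ
      · exact hγ
    exact hle h0
  rw [hfe]
  exact Q.add_mem (Q.add_mem (Q.add_mem ha (Q.mul_mem_left _ hx)) (Q.mul_mem_left _ hw))
    (Q.mul_mem_right _ ht)

theorem dim_le_one {A B : Type} [CommRing A] [CommRing B] [IsLocalRing A] [IsNoetherianRing B]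
    [Nontrivial B] (f : A →+* B) (hf : Function.Surjective f) (u : A) (hmem : u ∈ maximalIdeal A)
    (h : ∀ Q : Ideal A, Q.IsPrime → RingHom.ker f ≤ Q → u ∈ Q → maximalIdeal A ≤ Q) :
    ringKrullDim B ≤ 1 := by
  have hloc : IsLocalRing B := IsLocalRing.of_surjective' f hf
  have hl : IsLocalHom f := IsLocalHom.of_surjective f hf
  refine le_trans (le_of_eq (IsLocalRing.maximalIdeal_height_eq_ringKrullDim (R := B)).symm) ?_
  have h1 : (maximalIdeal B).height ≤ 1 := by
    have hmin : maximalIdeal B ∈ (Ideal.span {f u} : Ideal B).minimalPrimes := by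
      refine ⟨⟨inferInstance, ?_⟩, ?_⟩
      · rw [Ideal.span_singleton_le_iff_mem, mem_maximalIdeal, mem_nonunits_iff]
        intro hu
        exact hmem ((isUnit_map_iff f _).1 hu)
      · rintro Q ⟨hQ, hle⟩ - b hb
        obtain ⟨r, rfl⟩ := hf b
        have hr : r ∈ maximalIdeal A := by
          rw [mem_maximalIdeal, mem_nonunits_iff] at hb ⊢
          intro hu
          exact hb (hu.map _)
        have hcom : maximalIdeal A ≤ Q.comap f := by
          refine h _ (hQ.comap _) ?_ ?_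
          · intro v hv
            rw [Ideal.mem_comap, (RingHom.mem_ker).1 hv]
            exact Q.zero_mem
          · exact hle (Ideal.subset_span rfl)
        exact hcom hr
    exact Ideal.height_le_one_of_isPrincipal_of_mem_minimalPrimes _ _ hmin
  exact WithBot.coe_le_coe.2 h1

theorem dim_quot_le_one {A : Type} [CommRing A] [IsLocalRing A] [IsNoetherianRing A] (I : Ideal A)
    (hI : I ≠ ⊤) (u : A) (hmem : u ∈ maximalIdeal A)
    (h : ∀ Q : Ideal A, Q.IsPrime → I ≤ Q → u ∈ Q → maximalIdeal A ≤ Q) :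
    ringKrullDim (A ⧸ I) ≤ 1 := by
  have hnt : Nontrivial (A ⧸ I) := Ideal.Quotient.nontrivial_iff.2 hI
  refine dim_le_one (Ideal.Quotient.mk I) Ideal.Quotient.mk_surjective u hmem ?_
  intro Q hQ hle hu
  rw [Ideal.mk_ker] at hle
  exact h Q hQ hle hu

theorem dim_N [IsLocalRing (RP T α β γ)] (hB : Base T α β γ) :
    ringKrullDim (RP T α β γ ⧸ cP T α β γ) ≤ 1 := by
  refine dim_quot_le_one (cP T α β γ)
    (cP_ne_top (mem_max hB).1 (mem_max hB).2.1 (mem_max hB).2.2)
    (toRP (RR.s : RR T α β γ) + tt) ?_ (fun Q hQ hle hu => max_le hB Q hQ hle hu)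
  rw [mem_maximalIdeal, mem_nonunits_iff]
  intro hu
  have h2 := hu.map (ev (α := α) (β := β) (γ := γ) (residue T))
  rw [map_add, ev_toRP, ev_tt, add_zero] at h2
  have h3 : (RR.s : RR T α β γ).a = γ := rfl
  rw [h3, (residue_eq_zero_iff γ).2 (mem_max hB).2.2] at h2
  exact not_isUnit_zero h2

end Pool.Agent.K9lead.GC
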