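import Mathlib

set_option autoImplicit false

/-! A finitely generated algebra of finite Gelfand-Kirillov dimension without a greatest nilpotent
ideal: the monomial algebra with generators `X`, `E` and the relations `E X^a E X^c E = 0` for
`a ≠ c` and `(E X^n)^(n+1) E = 0`, in a concrete representation. -/

namespace Pool.Agent.K9lead.NIL

/-- the space on which the algebra acts -/
abbrev VV : Type := (ℕ × ℕ × ℕ) →₀ ℚ

/-- the vector with block `n`, position `i` and height `j` -/
noncomputable def vv (n i j : ℕ) : VV := if i ≤ n ∧ j ≤ n then Finsupp.single (n, i, j) 1 else 0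

/-- the first operator -/
noncomputable def X : Module.End ℚ VV :=
  Finsupp.linearCombination ℚ (fun p : ℕ × ℕ × ℕ => vv p.1 (p.2.1 + 1) p.2.2)

/-- the second operator -/
noncomputable def E : Module.End ℚ VV :=
  Finsupp.linearCombination ℚ
    (fun p : ℕ × ℕ × ℕ => if p.2.1 = p.1 then vv p.1 0 (p.2.2 + 1) else 0)

theorem X_single (n i j : ℕ) : X (Finsupp.single (n, i, j) 1) = vv n (i + 1) j := by
  unfold X
  rw [Finsupp.linearCombination_single, one_smul]

theorem E_single (n i j : ℕ) :
    E (Finsupp.single (n, i, j) 1) = if i = n then vv n 0 (j + 1) else 0 := by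
  unfold E
  rw [Finsupp.linearCombination_single, one_smul]

theorem X_vv (n i j : ℕ) : X (vv n i j) = vv n (i + 1) j := by
  by_cases h : i ≤ n ∧ j ≤ n
  · have h1 : vv n i j = Finsupp.single (n, i, j) 1 := if_pos h
    rw [h1, X_single]
  · have h1 : vv n i j = 0 := if_neg h
    have h2 : vv n (i + 1) j = 0 := if_neg (by omega)
    rw [h1, h2, map_zero]

theorem E_vv (n i j : ℕ) : E (vv n i j) = if i = n then vv n 0 (j + 1) else 0 := by
  by_cases h : i ≤ n ∧ j ≤ n
  · have h1 : vv n i j = Finsupp.single (n, i, j) 1 := if_pos h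
    rw [h1, E_single]
  · have h1 : vv n i j = 0 := if_neg h
    rw [h1, map_zero]
    split_ifs with h3
    · exact (if_neg (by omega)).symm
    · rfl

theorem Xpow_vv (n i j a : ℕ) : (X ^ a) (vv n i j) = vv n (i + a) j := by
  induction a generalizing i with
  | zero => simp
  | succ a ih => rw [pow_succ, Module.End.mul_apply, X_vv, ih]; congr 1; omega

/-- the first relation -/
theorem rel1 (a c : ℕ) (h : a ≠ c) : E * X ^ a * E * X ^ c * E = 0 := by
  apply Finsupp.lhom_ext'
  rintro ⟨n, i, j⟩
  apply LinearMap.ext_ring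
  simp only [LinearMap.comp_apply, Finsupp.lsingle_apply, Module.End.mul_apply, E_single,
    LinearMap.zero_apply]
  split_ifs with h1
  · rw [Xpow_vv, E_vv]
    split_ifs with h2
    · rw [Xpow_vv, E_vv, if_neg]
      intro h3
      omega
    · simp
  · simp

/-- the vectors of block `n` and height at least `j` -/
noncomputable def W (n j : ℕ) : Submodule ℚ VV :=
  Submodule.span ℚ {u | ∃ i j', j ≤ j' ∧ u = Finsupp.single (n, i, j') 1}

theorem single_mem (n i j j' : ℕ) (h : j ≤ j') : (Finsupp.single (n, i, j') 1 : VV) ∈ W n j :=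
  Submodule.subset_span ⟨i, j', h, rfl⟩

theorem vv_mem (n i j j' : ℕ) (h : j ≤ j') : vv n i j' ∈ W n j := by
  unfold vv
  split_ifs
  · exact single_mem n i j j' h
  · exact Submodule.zero_mem _

theorem W_mono (n j j' : ℕ) (h : j ≤ j') : W n j' ≤ W n j := by
  unfold W
  apply Submodule.span_mono
  rintro u ⟨i, k, hk, rfl⟩
  exact ⟨i, k, h.trans hk, rfl⟩

/-- a linear map which maps the generators of `W n j` into a submodule -/
theorem map_W (T : Module.End ℚ VV) (n j : ℕ) (S : Submodule ℚ VV)
    (h : ∀ i j', j ≤ j' → T (Finsupp.single (n, i, j') 1) ∈ S) (u : VV) (hu : u ∈ W n j) :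
    T u ∈ S := by
  have h1 : W n j ≤ S.comap T := by
    unfold W
    rw [Submodule.span_le]
    rintro u ⟨i, j', hj, rfl⟩
    exact h i j' hj
  exact h1 hu

/-- the subalgebra -/
noncomputable def SA : Subalgebra ℚ (Module.End ℚ VV) := Algebra.adjoin ℚ {X, E}

/-- the algebra -/
def AA : Type := ↥SA

noncomputable instance instRingAA : Ring AA := inferInstanceAs (Ring ↥SA)

noncomputable instance instAlgebraAA : Algebra ℚ AA := inferInstanceAs (Algebra ℚ ↥SA)

theorem stable (T : Module.End ℚ VV) (hT : T ∈ SA) (n j : ℕ) (u : VV) (hu : u ∈ W n j) :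
    T u ∈ W n j := by
  unfold SA at hT
  induction hT using Algebra.adjoin_induction generalizing u with
  | mem T hT =>
    rcases hT with rfl | rfl
    · refine map_W _ _ _ _ (fun i j' hj => ?_) u hu
      rw [X_single]
      exact vv_mem _ _ _ _ hj
    · refine map_W _ _ _ _ (fun i j' hj => ?_) u hu
      rw [E_single]
      split_ifs
      · exact vv_mem _ _ _ _ (by omega)
      · exact Submodule.zero_mem _
  | algebraMap r =>
    rw [Module.algebraMap_end_apply]
    exact Submodule.smul_mem _ _ hu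
  | add S T _ _ hS hT =>
    rw [LinearMap.add_apply]
    exact Submodule.add_mem _ (hS u hu) (hT u hu)
  | mul S T _ _ hS hT =>
    rw [Module.End.mul_apply]
    exact hS _ (hT u hu)

/-- the condition defining the `n`-th nilpotent ideal -/
def PP (n : ℕ) (T : Module.End ℚ VV) : Prop :=
  (∀ m j, m ≠ n → ∀ u ∈ W m j, T u = 0) ∧ (∀ j, ∀ u ∈ W n j, T u ∈ W n (j + 1)) ∧
    (∀ j, n < j → ∀ u ∈ W n j, T u = 0)

/-- the `n`-th nilpotent ideal -/
noncomputable def JJ (n : ℕ) : TwoSidedIdeal AA :=
  TwoSidedIdeal.mk' {T : AA | PP n T.1}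
    (by
      refine ⟨fun _ _ _ _ _ => rfl, fun j u _ => ?_, fun _ _ _ _ => rfl⟩
      exact Submodule.zero_mem _)
    (by
      intro S T hS hT
      refine ⟨fun m j hm u hu => ?_, fun j u hu => ?_, fun j hj u hu => ?_⟩
      · change S.1 u + T.1 u = 0
        rw [hS.1 m j hm u hu, hT.1 m j hm u hu, add_zero]
      · exact Submodule.add_mem _ (hS.2.1 j u hu) (hT.2.1 j u hu)
      · change S.1 u + T.1 u = 0
        rw [hS.2.2 j hj u hu, hT.2.2 j hj u hu, add_zero])
    (by
      intro S hS
      refine ⟨fun m j hm u hu => ?_, fun j u hu => ?_, fun j hj u hu => ?_⟩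
      · change -(S.1 u) = 0
        rw [hS.1 m j hm u hu, neg_zero]
      · exact Submodule.neg_mem _ (hS.2.1 j u hu)
      · change -(S.1 u) = 0
        rw [hS.2.2 j hj u hu, neg_zero])
    (by
      intro S T hT
      refine ⟨fun m j hm u hu => ?_, fun j u hu => ?_, fun j hj u hu => ?_⟩
      · change S.1 (T.1 u) = 0
        rw [hT.1 m j hm u hu, map_zero]
      · exact stable S.1 S.2 _ _ _ (hT.2.1 j u hu)
      · change S.1 (T.1 u) = 0
        rw [hT.2.2 j hj u hu, map_zero])
    (by
      intro S T hS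
      refine ⟨fun m j hm u hu => ?_, fun j u hu => ?_, fun j hj u hu => ?_⟩
      · exact hS.1 m j hm _ (stable T.1 T.2 _ _ _ hu)
      · exact hS.2.1 j _ (stable T.1 T.2 _ _ _ hu)
      · exact hS.2.2 j hj _ (stable T.1 T.2 _ _ _ hu))

theorem mem_JJ (n : ℕ) (T : AA) : T ∈ JJ n ↔ PP n T.1 := by
  unfold JJ
  exact TwoSidedIdeal.mem_mk' _ _ _ _ _ _ _

theorem prod_mem (n : ℕ) (l : List AA) (hl : ∀ T ∈ l, T ∈ JJ n) (j : ℕ) (u : VV)
    (hu : u ∈ W n j) : l.prod.1 u ∈ W n (j + l.length) := by
  induction l with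
  | nil => exact hu
  | cons T l ih =>
    rw [List.prod_cons, List.length_cons]
    have h1 := ih (fun S hS => hl S (List.mem_cons_of_mem _ hS))
    have h2 := ((mem_JJ n T).1 (hl T List.mem_cons_self)).2.1 _ _ h1
    rw [add_assoc] at h2
    exact h2

theorem nilpotent (n : ℕ) (f : Fin (n + 2) → AA) (hf : ∀ i, f i ∈ JJ n) :
    (List.ofFn f).prod = 0 := by
  rw [List.ofFn_succ, List.prod_cons]
  set l := List.ofFn (fun i : Fin (n + 1) => f i.succ) with hl
  have hlen : l.length = n + 1 := by rw [hl, List.length_ofFn]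
  have hmem : ∀ T ∈ l, T ∈ JJ n := by
    intro T hT
    rw [hl, List.mem_ofFn] at hT
    obtain ⟨i, rfl⟩ := hT
    exact hf _
  have h0 := (mem_JJ n (f 0)).1 (hf 0)
  apply Subtype.ext
  apply Finsupp.lhom_ext'
  rintro ⟨m, i, j⟩
  apply LinearMap.ext_ring
  simp only [LinearMap.comp_apply, Finsupp.lsingle_apply]
  change (f 0).1 (l.prod.1 (Finsupp.single (m, i, j) 1)) = 0
  by_cases hm : m = n
  · subst hm
    have h1 := prod_mem m l hmem j _ (single_mem m i j j le_rfl)
    rw [hlen] at h1
    exact h0.2.2 _ (by omega) _ h1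
  · exact h0.1 m j hm _ (stable _ l.prod.2 _ _ _ (single_mem m i j j le_rfl))

/-- the generators in the algebra -/
noncomputable def X' : AA := (⟨X, Algebra.subset_adjoin (by simp)⟩ : ↥SA)

/-- the generators in the algebra -/
noncomputable def E' : AA := (⟨E, Algebra.subset_adjoin (by simp)⟩ : ↥SA)

/-- the element of the `n`-th ideal -/
noncomputable def gg (n : ℕ) : AA := X' ^ n * E' * X' ^ n * E'

theorem gg_val (n : ℕ) : (gg n).1 = X ^ n * E * X ^ n * E := rfl

theorem gg_single (n m i j : ℕ) : (gg n).1 (Finsupp.single (m, i, j) 1) =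
    if i = m ∧ n = m then vv m n (j + 2) else 0 := by
  rw [gg_val]
  simp only [Module.End.mul_apply, E_single]
  by_cases h1 : i = m
  · rw [if_pos h1, Xpow_vv, E_vv, zero_add]
    by_cases h2 : n = m
    · rw [if_pos h2, if_pos ⟨h1, h2⟩, Xpow_vv, zero_add]
    · rw [if_neg h2, if_neg (fun h => h2 h.2), map_zero]
  · rw [if_neg h1, if_neg (fun h => h1 h.1)]
    simp

theorem gg_mem (n : ℕ) : gg n ∈ JJ n := by
  rw [mem_JJ]
  refine ⟨fun m j hm u hu => ?_, fun j u hu => ?_, fun j hj u hu => ?_⟩
  · have h := map_W (gg n).1 m j ⊥ (fun i j' hj => by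
      rw [gg_single, if_neg (fun h => hm h.2.symm)]
      exact Submodule.zero_mem _) u hu
    exact (Submodule.mem_bot ℚ).1 h
  · refine map_W (gg n).1 n j _ (fun i j' hj => ?_) u hu
    rw [gg_single]
    split_ifs
    · exact vv_mem _ _ _ _ (by omega)
    · exact Submodule.zero_mem _
  · have h := map_W (gg n).1 n j ⊥ (fun i j' hj' => by
      rw [gg_single]
      split_ifs
      · have : vv n n (j' + 2) = 0 := if_neg (by omega)
        rw [this]
        exact Submodule.zero_mem _
      · exact Submodule.zero_mem _) u hu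
    exact (Submodule.mem_bot ℚ).1 h

theorem gg_vv (n j : ℕ) : (gg n).1 (vv n n j) = vv n n (j + 2) := by
  rw [gg_val]
  simp only [Module.End.mul_apply, E_vv, if_true, Xpow_vv, zero_add]

theorem gg_pow (n M : ℕ) : ((gg n) ^ M).1 (vv n n 0) = vv n n (2 * M) := by
  induction M with
  | zero => rfl
  | succ M ih =>
    rw [pow_succ']
    change (gg n).1 (((gg n) ^ M).1 (vv n n 0)) = _
    rw [ih, gg_vv]
    congr 1

theorem gg_pow_ne (M : ℕ) : (gg (2 * M)) ^ M ≠ 0 := by
  intro h
  have h1 := gg_pow (2 * M) M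
  rw [h] at h1
  have h2 : vv (2 * M) (2 * M) (2 * M) = Finsupp.single (2 * M, 2 * M, 2 * M) 1 :=
    if_pos ⟨le_rfl, le_rfl⟩
  rw [h2] at h1
  have h4 : (0 : AA).1 (vv (2 * M) (2 * M) 0) = 0 := rfl
  rw [h4] at h1
  have h3 := congrArg (fun u : VV => u (2 * M, 2 * M, 2 * M)) h1
  simp at h3

/-! ### growth -/

/-- the generating subspace -/
noncomputable def V0 : Submodule ℚ AA := Submodule.span ℚ {1, X', E'}

theorem rel1' (a c : ℕ) (h : a ≠ c) : E' * X' ^ a * E' * X' ^ c * E' = 0 :=
  Subtype.ext (rel1 a c h)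

/-- the words -/
noncomputable def wd (p : ℕ × ℕ × ℕ × ℕ) : AA :=
  X' ^ p.1 * (E' * X' ^ p.2.1) ^ p.2.2.1 * E' * X' ^ p.2.2.2

open Classical in
/-- the words of bounded length -/
noncomputable def GG (n : ℕ) : Finset AA :=
  (Finset.range (n + 1)).image (fun a => X' ^ a) ∪
    (Finset.range (n + 1) ×ˢ Finset.range (n + 1) ×ˢ Finset.range (n + 1) ×ˢ
      Finset.range (n + 1)).image wd

theorem card_GG (n : ℕ) : (GG n).card ≤ 2 * (n + 1) ^ 4 := by
  classical
  unfold GG
  refine (Finset.card_union_le _ _).trans ?_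
  have h1 := Finset.card_image_le (s := Finset.range (n + 1)) (f := fun a => X' ^ a)
  have h2 := Finset.card_image_le (s := (Finset.range (n + 1) ×ˢ Finset.range (n + 1) ×ˢ
    Finset.range (n + 1) ×ˢ Finset.range (n + 1))) (f := wd)
  rw [Finset.card_product, Finset.card_product, Finset.card_product, Finset.card_range] at h2
  rw [Finset.card_range] at h1
  have h3 : n + 1 ≤ (n + 1) ^ 4 := Nat.le_self_pow (by norm_num) _
  have h4 : (n + 1) * ((n + 1) * ((n + 1) * (n + 1))) = (n + 1) ^ 4 := by ring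
  rw [h4] at h2
  omega

theorem mem_GG1 {n a : ℕ} (h : a ≤ n) : X' ^ a ∈ GG n := by
  classical
  unfold GG
  exact Finset.mem_union_left _ (Finset.mem_image_of_mem _ (Finset.mem_range.2 (by omega)))

theorem mem_GG2 {n a c k b : ℕ} (h1 : a ≤ n) (h2 : c ≤ n) (h3 : k ≤ n) (h4 : b ≤ n) :
    wd (a, c, k, b) ∈ GG n := by
  classical
  unfold GG
  refine Finset.mem_union_right _ (Finset.mem_image_of_mem _ ?_)
  simp only [Finset.mem_product, Finset.mem_range]
  omega

theorem GG_cases {n : ℕ} {g : AA} (h : g ∈ GG n) : (∃ a, a ≤ n ∧ g = X' ^ a) ∨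
    ∃ a c k b, a ≤ n ∧ c ≤ n ∧ k ≤ n ∧ b ≤ n ∧ g = wd (a, c, k, b) := by
  classical
  unfold GG at h
  rcases Finset.mem_union.1 h with h | h
  · obtain ⟨a, ha, rfl⟩ := Finset.mem_image.1 h
    exact Or.inl ⟨a, by have := Finset.mem_range.1 ha; omega, rfl⟩
  · obtain ⟨⟨a, c, k, b⟩, ha, rfl⟩ := Finset.mem_image.1 h
    simp only [Finset.mem_product, Finset.mem_range] at ha
    exact Or.inr ⟨a, c, k, b, by omega, by omega, by omega, by omega, rfl⟩

theorem one_step (n : ℕ) (s g : AA) (hs : s = 1 ∨ s = X' ∨ s = E') (hg : g ∈ GG n) :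
    s * g = 0 ∨ s * g ∈ GG (n + 1) := by
  rcases GG_cases hg with ⟨a, ha, rfl⟩ | ⟨a, c, k, b, ha, hc, hk, hb, rfl⟩
  · rcases hs with rfl | rfl | rfl
    · rw [one_mul]; exact Or.inr (mem_GG1 (by omega))
    · rw [← pow_succ']; exact Or.inr (mem_GG1 (by omega))
    · right
      have : E' * X' ^ a = wd (0, 0, 0, a) := by simp [wd]
      rw [this]
      exact mem_GG2 (by omega) (by omega) (by omega) (by omega)
  · rcases hs with rfl | rfl | rfl
    · rw [one_mul]; exact Or.inr (mem_GG2 (by omega) (by omega) (by omega) (by omega))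
    · right
      have : X' * wd (a, c, k, b) = wd (a + 1, c, k, b) := by
        simp only [wd, ← mul_assoc, ← pow_succ']
      rw [this]
      exact mem_GG2 (by omega) (by omega) (by omega) (by omega)
    · rcases k with _ | k
      · right
        have : E' * wd (a, c, 0, b) = wd (0, a, 1, b) := by
          simp only [wd, pow_zero, one_mul, mul_one, pow_one, mul_assoc]
        rw [this]
        exact mem_GG2 (by omega) (by omega) (by omega) (by omega)
      · by_cases hac : a = c
        · right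
          subst hac
          have : E' * wd (a, a, k + 1, b) = wd (0, a, k + 1 + 1, b) := by
            simp only [wd, pow_zero, one_mul]
            rw [pow_succ' (E' * X' ^ a) (k + 1)]
            simp only [mul_assoc]
          rw [this]
          exact mem_GG2 (by omega) (by omega) (by omega) (by omega)
        · left
          have h1 := rel1' a c hac
          have h2 : ∃ r : AA, (E' * X' ^ c) ^ k * E' * X' ^ b = E' * r := by
            rcases k with _ | k
            · exact ⟨X' ^ b, by rw [pow_zero, one_mul]⟩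
            · exact ⟨X' ^ c * (E' * X' ^ c) ^ k * E' * X' ^ b, by
                rw [pow_succ']; simp only [mul_assoc]⟩
          obtain ⟨r, hr⟩ := h2
          have h3 : E' * wd (a, c, k + 1, b) = (E' * X' ^ a * E' * X' ^ c * E') * r := by
            simp only [wd]
            rw [pow_succ' (E' * X' ^ c) k]
            have h4 : E' * (X' ^ a * ((E' * X' ^ c) * (E' * X' ^ c) ^ k) * E' * X' ^ b) =
                E' * X' ^ a * E' * X' ^ c * ((E' * X' ^ c) ^ k * E' * X' ^ b) := by
              simp only [mul_assoc]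
            rw [h4, hr]
            simp only [mul_assoc]
          rw [h3, h1, zero_mul]

theorem V0_pow (n : ℕ) : V0 ^ n ≤ Submodule.span ℚ (GG n : Set AA) := by
  induction n with
  | zero =>
    rw [pow_zero, Submodule.one_eq_span]
    apply Submodule.span_mono
    intro g hg
    rw [Set.mem_singleton_iff] at hg
    rw [hg, ← pow_zero X']
    exact mem_GG1 le_rfl
  | succ n ih =>
    rw [pow_succ']
    refine (mul_le_mul_right ih V0).trans ?_
    unfold V0
    rw [Submodule.span_mul_span, Submodule.span_le]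
    rintro _ ⟨s, hs, g, hg, rfl⟩
    have hs' : s = 1 ∨ s = X' ∨ s = E' := by simpa using hs
    rcases one_step n s g hs' hg with h | h
    · change s * g ∈ _
      rw [h]
      exact Submodule.zero_mem _
    · exact Submodule.subset_span h

theorem growth (n : ℕ) : Module.finrank ℚ ↥(V0 ^ n) ≤ 2 * (n + 1) ^ 4 := by
  refine le_trans ?_ (card_GG n)
  exact (Submodule.finrank_mono (V0_pow n)).trans (finrank_span_finset_le_card _)

theorem adjoin_top : Algebra.adjoin ℚ ({X', E'} : Set AA) = ⊤ := by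
  have h := Algebra.adjoin_adjoin_coe_preimage (R := ℚ) (s := ({X, E} : Set (Module.End ℚ VV)))
  refine Eq.trans ?_ h
  congr 1
  ext T
  simp only [Set.mem_insert_iff, Set.mem_singleton_iff]
  constructor
  · rintro (rfl | rfl)
    · exact Or.inl rfl
    · exact Or.inr rfl
  · rintro (h | h)
    · exact Or.inl (Subtype.ext h)
    · exact Or.inr (Subtype.ext h)

theorem adjoin_V0 : Algebra.adjoin ℚ (V0 : Set AA) = ⊤ := by
  rw [eq_top_iff, ← adjoin_top]
  apply Algebra.adjoin_mono
  intro T hT
  apply Submodule.subset_span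
  rcases hT with rfl | rfl
  · simp
  · simp

theorem fd_V0 : FiniteDimensional ℚ V0 :=
  FiniteDimensional.span_of_finite ℚ (Set.toFinite _)

theorem one_mem_V0 : (1 : AA) ∈ V0 := Submodule.subset_span (Set.mem_insert _ _)

theorem hV0 : ∃ V : Submodule ℚ AA, FiniteDimensional ℚ V ∧ (1 : AA) ∈ V ∧
    Algebra.adjoin ℚ (V : Set AA) = ⊤ ∧
    ∃ C d : ℕ, ∀ n : ℕ, Module.finrank ℚ ↥(V ^ n) ≤ C * (n + 1) ^ d :=
  ⟨V0, fd_V0, one_mem_V0, adjoin_V0, 2, 4, growth⟩

theorem no_bound (N : TwoSidedIdeal AA) (M : ℕ)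
    (hM : ∀ f : Fin M → AA, (∀ i, f i ∈ N) → (List.ofFn f).prod = 0)
    (hJ : JJ (2 * M) ≤ N) : False := by
  have h0 := hM (fun _ => gg (2 * M)) (fun _ => hJ (gg_mem (2 * M)))
  rw [List.ofFn_const, List.prod_replicate] at h0
  exact gg_pow_ne M h0

theorem finiteType : Algebra.FiniteType ℚ AA := by
  classical
  refine ⟨⟨{X', E'}, ?_⟩⟩
  rw [← adjoin_top]
  simp

end Pool.Agent.K9lead.NIL
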